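import Pool.Agent.K7.H74.AF.Stm

set_option autoImplicit false

open MeasureTheory Finset

namespace Pool.Agent.K7.H36.AF

open Pool.Agent.K7.H74.AF

theorem summable_pi (t : ℕ) {q : ℝ} (h0 : 0 ≤ q) (h1 : q < 1) :
    Summable fun b : Fin t → ℕ => ∏ i, q ^ b i := by
  classical
  refine summable_of_sum_le (c := ((1 - q)⁻¹) ^ t) (fun b => Finset.prod_nonneg fun i _ => pow_nonneg h0 _) ?_
  intro u
  obtain ⟨N, hN⟩ : ∃ N : ℕ, ∀ b ∈ u, ∀ i, b i < N := by
    refine ⟨u.sup (fun b => Finset.univ.sup b) + 1, fun b hb i => ?_⟩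
    have h2 : b i ≤ Finset.univ.sup b := Finset.le_sup (f := b) (Finset.mem_univ i)
    have h3 : Finset.univ.sup b ≤ u.sup (fun b => Finset.univ.sup b) :=
      Finset.le_sup (f := fun b : Fin t → ℕ => Finset.univ.sup b) hb
    omega
  have hsub : u ⊆ Fintype.piFinset fun _ : Fin t => Finset.range N := by
    intro b hb
    rw [Fintype.mem_piFinset]
    exact fun i => Finset.mem_range.2 (hN b hb i)
  calc ∑ b ∈ u, ∏ i, q ^ b i ≤ ∑ b ∈ Fintype.piFinset fun _ : Fin t => Finset.range N, ∏ i, q ^ b i :=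
        Finset.sum_le_sum_of_subset_of_nonneg hsub
          fun b _ _ => Finset.prod_nonneg fun i _ => pow_nonneg h0 _
    _ = ∏ _i : Fin t, ∑ n ∈ Finset.range N, q ^ n := by
        rw [Finset.prod_univ_sum]
    _ ≤ ∏ _i : Fin t, (1 - q)⁻¹ := by
        refine Finset.prod_le_prod (fun i _ => Finset.sum_nonneg fun n _ => pow_nonneg h0 _) fun i _ => ?_
        rw [← tsum_geometric_of_lt_one h0 h1]
        exact (summable_geometric_of_lt_one h0 h1).sum_le_tsum _ (fun n _ => pow_nonneg h0 _)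
    _ = ((1 - q)⁻¹) ^ t := by simp

/-- the index type -/
abbrev Idx (t : ℕ) : Type := {p : (Fin t → ℕ) × ℕ × ℕ // mx p.1 ≤ p.2.1}

theorem lin_le {q : ℝ} (h0 : 0 < q) (h1 : q < 1) : ∃ C : ℝ, 0 < C ∧ ∀ J : ℕ, (1 + (J : ℝ)) * q ^ J ≤ C := by
  have hs : Summable fun n : ℕ => (n : ℝ) ^ 1 * q ^ n :=
    summable_pow_mul_geometric_of_norm_lt_one 1 (by rw [Real.norm_of_nonneg h0.le]; exact h1)
  have hs2 : Summable fun n : ℕ => q ^ n := summable_geometric_of_lt_one h0.le h1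
  have hs3 := hs2.add hs
  refine ⟨(∑' n : ℕ, (q ^ n + (n : ℝ) ^ 1 * q ^ n)) + 1, ?_, fun J => ?_⟩
  · have : 0 ≤ ∑' n : ℕ, (q ^ n + (n : ℝ) ^ 1 * q ^ n) := tsum_nonneg fun n => by positivity
    linarith
  · have h := hs3.le_tsum J (fun n _ => by positivity)
    have h2 : (1 + (J : ℝ)) * q ^ J = q ^ J + (J : ℝ) ^ 1 * q ^ J := by ring
    rw [h2]
    linarith

theorem summable_idx (t : ℕ) {δ : ℝ} (hδ : 0 < δ) :
    Summable fun p : Idx t => (1 + (p.1.2.1 : ℝ)) / ((3 : ℝ) ^ p.1.2.1 * 2 ^ p.1.2.2) ^ δ := by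
  -- `s = δ / (t + 2)`
  set s : ℝ := δ / (t + 2) with hs
  have ht : (0 : ℝ) < t + 2 := by positivity
  have hspos : 0 < s := by positivity
  set q : ℝ := (3 : ℝ) ^ (-s) with hq
  set r : ℝ := (2 : ℝ) ^ (-δ) with hr
  have hq0 : 0 < q := by positivity
  have hq1 : q < 1 := Real.rpow_lt_one_of_one_lt_of_neg (by norm_num) (by linarith)
  have hr0 : 0 < r := by positivity
  have hr1 : r < 1 := Real.rpow_lt_one_of_one_lt_of_neg (by norm_num) (by linarith)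
  obtain ⟨C, hC, hlin⟩ := lin_le hq0 hq1
  have hF : Summable fun p : (Fin t → ℕ) × ℕ × ℕ => (∏ i, q ^ p.1 i) * (q ^ p.2.1 * r ^ p.2.2) := by
    refine Summable.mul_of_nonneg (f := fun b : Fin t → ℕ => ∏ i, q ^ b i)
      (g := fun x : ℕ × ℕ => q ^ x.1 * r ^ x.2) (summable_pi t hq0.le hq1) ?_ ?_ ?_
    · exact Summable.mul_of_nonneg (f := fun n : ℕ => q ^ n) (g := fun n : ℕ => r ^ n)
        (summable_geometric_of_lt_one hq0.le hq1)
        (summable_geometric_of_lt_one hr0.le hr1) (fun n => by positivity) (fun n => by positivity)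
    · intro b
      exact Finset.prod_nonneg fun i _ => pow_nonneg hq0.le _
    · intro x
      show 0 ≤ q ^ x.1 * r ^ x.2
      positivity
  refine Summable.of_nonneg_of_le (fun p => by positivity) (fun p => ?_)
    ((hF.mul_left C).comp_injective (Subtype.val_injective (p := fun p : (Fin t → ℕ) × ℕ × ℕ => mx p.1 ≤ p.2.1)))
  obtain ⟨⟨b, J, l⟩, hb⟩ := p
  simp only [Function.comp]
  simp only at hb
  -- the denominators
  have h3 : ((3 : ℝ) ^ J * 2 ^ l) ^ δ = (q ^ J)⁻¹ ^ (t + 2) * (r ^ l)⁻¹ := by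
    rw [Real.mul_rpow (by positivity) (by positivity)]
    congr 1
    · rw [← inv_pow, ← Real.rpow_natCast (3 : ℝ) J, ← Real.rpow_mul (by norm_num), hq, ← Real.rpow_neg (by norm_num),
        neg_neg, ← pow_mul, ← Real.rpow_natCast ((3 : ℝ) ^ s) (J * (t + 2)), ← Real.rpow_mul (by norm_num)]
      congr 1
      push_cast
      rw [hs]
      field_simp
    · rw [← inv_pow, hr, ← Real.rpow_neg (by norm_num), neg_neg, ← Real.rpow_natCast (2 : ℝ) l,
        ← Real.rpow_mul (by norm_num), ← Real.rpow_natCast ((2 : ℝ) ^ δ) l, ← Real.rpow_mul (by norm_num)]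
      congr 1
      ring
  have hbi : ∀ i, b i ≤ J := fun i => (Finset.le_sup (f := b) (Finset.mem_univ i)).trans hb
  have h4 : q ^ J ^ 1 ≤ 1 := by
    rw [pow_one]
    exact pow_le_one₀ hq0.le hq1.le
  have h5 : (q ^ J) ^ t ≤ ∏ i, q ^ b i := by
    calc (q ^ J) ^ t = ∏ _i : Fin t, q ^ J := by simp
      _ ≤ ∏ i, q ^ b i := Finset.prod_le_prod (fun i _ => by positivity)
          fun i _ => pow_le_pow_of_le_one hq0.le hq1.le (hbi i)
  rw [h3, div_eq_mul_inv, mul_inv, inv_inv, inv_pow, inv_inv]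
  calc (1 + (J : ℝ)) * ((q ^ J) ^ (t + 2) * r ^ l)
      = ((1 + (J : ℝ)) * q ^ J) * ((q ^ J) ^ t * (q ^ J * r ^ l)) := by ring
    _ ≤ C * ((∏ i, q ^ b i) * (q ^ J * r ^ l)) := by
        refine mul_le_mul (hlin J) ?_ (by positivity) hC.le
        exact mul_le_mul_of_nonneg_right h5 (by positivity)

theorem ple (hA : StPae) (hM : StMeas) (hS : StSplit) : StPle := by
  intro k t δ η hk hδ hη ξ
  obtain ⟨-, -, hLm, hEm, -, -⟩ := hM
  obtain ⟨-, -, -, -, hLb, hEL⟩ := hS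
  have hLfin : ∀ (b : Fin t → ℕ) (l : ℕ), volume (Lv k ξ b l) ≠ ⊤ := fun b l =>
    ne_top_of_le_ne_top ENNReal.ofReal_ne_top (hLb k t ξ b l)
  have hEfin : ∀ (b : Fin t → ℕ) (l : ℕ), volume (Ex k ξ b η l) ≠ ⊤ := fun b l =>
    ne_top_of_le_ne_top (hLfin b l) (measure_mono (hEL k t ξ b η l hη))
  have h1 := hA k hk (Idx t) (fun p => p.1.2.1) (fun p => Lv k ξ p.1.1 p.1.2.2)
    (fun p => ((3 : ℝ) ^ p.1.2.1 * 2 ^ p.1.2.2) ^ δ) (fun p => hLm k t ξ p.1.1 p.1.2.2)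
    (fun p => hLfin p.1.1 p.1.2.2) (fun p => by positivity) (summable_idx t hδ)
  have h2 := hA k hk (Idx t) (fun p => p.1.2.1) (fun p => Ex k ξ p.1.1 η p.1.2.2)
    (fun p => ((3 : ℝ) ^ p.1.2.1 * 2 ^ p.1.2.2) ^ δ) (fun p => hEm k t ξ p.1.1 η p.1.2.2)
    (fun p => hEfin p.1.1 p.1.2.2) (fun p => by positivity) (summable_idx t hδ)
  filter_upwards [h1, h2] with β hβ1 hβ2
  obtain ⟨C1, hC1, h1⟩ := hβ1
  obtain ⟨C2, hC2, h2⟩ := hβ2
  exact ⟨⟨C1, hC1, fun b J l hb => h1 ⟨(b, J, l), hb⟩⟩, ⟨C2, hC2, fun b J l hb => h2 ⟨(b, J, l), hb⟩⟩⟩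

end Pool.Agent.K7.H36.AF
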