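import Pool.Agent.K7.H74.AF.Stm

set_option autoImplicit false

open MeasureTheory Finset

namespace Pool.Agent.K7.H36.AF

open Pool.Agent.K7.H74.AF

theorem meas_pairs (k J : ℕ) {B : Set ℝ} (hB : MeasurableSet B) :
    Measurable (fun β : ℝ => pairs k J B β) := by
  unfold pairs
  refine Finset.measurable_sum _ fun x _ => Finset.measurable_sum _ fun y _ => ?_
  have hs : MeasurableSet
      {p : ℝ × ℝ | p.2 - ((x : ℝ) + p.1) ^ k ∈ B ∧ p.2 - ((y : ℝ) + p.1) ^ k ∈ B} := by
    have h1 : Measurable fun p : ℝ × ℝ => p.2 - ((x : ℝ) + p.1) ^ k := by fun_prop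
    have h2 : Measurable fun p : ℝ × ℝ => p.2 - ((y : ℝ) + p.1) ^ k := by fun_prop
    exact (h1 hB).inter (h2 hB)
  exact measurable_measure_prodMk_left hs

theorem pairs_zero (k J : ℕ) {B : Set ℝ} (h : volume B = 0) (β : ℝ) : pairs k J B β = 0 := by
  unfold pairs
  refine Finset.sum_eq_zero fun x _ => Finset.sum_eq_zero fun y _ => ?_
  refine measure_mono_null (t := (fun τ => τ + -(((x : ℝ) + β) ^ k)) ⁻¹' B) (fun τ hτ => ?_) ?_
  · have := hτ.1
    rw [sub_eq_add_neg] at this
    exact this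
  · rw [measure_preimage_add_right]
    exact h

theorem pae (hP : StPair) : StPae := by
  intro k hk ι _ J B ω hB hfin hω hsum
  obtain ⟨C₀, hC₀, hpair⟩ := hP k hk
  -- the normalising factors
  set c : ι → ℝ := fun n => ω n * ((3 : ℝ) ^ J n) ^ 2 / ((3 : ℝ) ^ J n) ^ k with hc
  have hcpos : ∀ n, 0 < c n := fun n => by
    have := hω n
    simp only [hc]
    positivity
  set D : ι → ENNReal := fun n => ENNReal.ofReal (c n) * volume (B n) ^ 2 with hD
  have hDtop : ∀ n, D n ≠ ⊤ := fun n =>
    ENNReal.mul_ne_top ENNReal.ofReal_ne_top (ENNReal.pow_ne_top (hfin n))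
  set g : ι → ℝ → ENNReal := fun n β => pairs k (J n) (B n) β / D n with hg
  have hgm : ∀ n, Measurable (g n) := fun n => (meas_pairs k (J n) (hB n)).div_const _
  have hint : ∀ n, ∫⁻ β in Set.Ioc (0 : ℝ) 1, g n β ≤ ENNReal.ofReal (C₀ * ((1 + (J n : ℝ)) / ω n)) := by
    intro n
    by_cases h0 : volume (B n) = 0
    · have : ∀ β, g n β = 0 := fun β => by
        simp only [hg]
        rw [pairs_zero k (J n) h0 β, ENNReal.zero_div]
      simp [this]
    · have hD0 : D n ≠ 0 := by
        simp only [hD]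
        refine mul_ne_zero ?_ (pow_ne_zero _ h0)
        rw [Ne, ENNReal.ofReal_eq_zero, not_le]
        exact hcpos n
      have h1 : ∫⁻ β in Set.Ioc (0 : ℝ) 1, g n β = (∫⁻ β in Set.Ioc (0 : ℝ) 1, pairs k (J n) (B n) β) / D n := by
        simp only [hg, div_eq_mul_inv]
        rw [lintegral_mul_const _ (meas_pairs k (J n) (hB n))]
      rw [h1]
      refine ENNReal.div_le_of_le_mul ?_
      refine (hpair (J n) (B n) (hB n)).trans (le_of_eq ?_)
      simp only [hD]
      rw [← mul_assoc, ← ENNReal.ofReal_mul (by have := hω n; positivity)]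
      congr 2
      simp only [hc]
      have := (hω n).ne'
      field_simp
  have htot : ∫⁻ β in Set.Ioc (0 : ℝ) 1, ∑' n, g n β ≠ ⊤ := by
    rw [lintegral_tsum fun n => (hgm n).aemeasurable]
    refine ne_top_of_le_ne_top ?_ (ENNReal.tsum_le_tsum hint)
    rw [← ENNReal.ofReal_tsum_of_nonneg (fun n => by have := hω n; positivity) (hsum.mul_left C₀)]
    exact ENNReal.ofReal_ne_top
  have hae := ae_lt_top (Measurable.tsum hgm) htot
  filter_upwards [hae] with β hβ
  refine ⟨(∑' n, g n β).toReal, ENNReal.toReal_nonneg, fun n => ?_⟩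
  by_cases h0 : volume (B n) = 0
  · rw [pairs_zero k (J n) h0 β]
    exact bot_le
  · have hD0 : D n ≠ 0 := by
      simp only [hD]
      refine mul_ne_zero ?_ (pow_ne_zero _ h0)
      rw [Ne, ENNReal.ofReal_eq_zero, not_le]
      exact hcpos n
    have h1 : g n β ≤ ∑' n, g n β := ENNReal.le_tsum n
    have h2 : pairs k (J n) (B n) β ≤ (∑' n, g n β) * D n := by
      have h3 : pairs k (J n) (B n) β = g n β * D n := by
        simp only [hg]
        rw [ENNReal.div_mul_cancel hD0 (hDtop n)]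
      rw [h3]
      gcongr
    refine h2.trans (le_of_eq ?_)
    have h4 : (∑' n, g n β) = ENNReal.ofReal (∑' n, g n β).toReal := (ENNReal.ofReal_toReal hβ.ne).symm
    rw [h4]
    simp only [hD]
    rw [← mul_assoc, ← ENNReal.ofReal_mul ENNReal.toReal_nonneg]
    rw [ENNReal.toReal_ofReal ENNReal.toReal_nonneg]
    congr 2
    simp only [hc]
    ring

end Pool.Agent.K7.H36.AF
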